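import Mathlib

/-!
ALL OF SIEGEL, the Dedekind step.  `B` a Dedekind domain with fraction field `K`,
`phi` a nonzero element of `K` which is, at every valuation ring of `K` containing `B`,
a unit times an `l`-th power.  Then there are two elements `rho = phi f^l`, `rho' = phi g^l`
of `B` generating the unit ideal.
-/

namespace Pool.Agent.H46.SG

open IsDedekindDomain IsDedekindDomain.HeightOneSpectrum

section

variable {B : Type*} [CommRing B] [IsDedekindDomain B]

/-- An ideal all of whose exponents are divisible by `l` is an `l`-th power. -/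
theorem exists_ideal_pow (l : ℕ) (r : B) (hr : r ≠ 0)
    (h : ∀ v : HeightOneSpectrum B,
      l ∣ (Associates.mk v.asIdeal).count (Associates.mk (Ideal.span {r})).factors) :
    ∃ I : Ideal B, Ideal.span {r} = I ^ l := by
  have h0 : Ideal.span {r} ≠ (0 : Ideal B) := by
    simpa [Ideal.span_singleton_eq_bot] using hr
  choose c hc using h
  rcases Nat.eq_zero_or_pos l with hl | hl
  · refine ⟨1, ?_⟩
    rw [one_pow, ← Ideal.finprod_heightOneSpectrum_factorization h0]
    apply finprod_eq_one_of_forall_eq_one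
    intro v
    rw [maxPowDividing, hc v, hl, zero_mul, pow_zero]
  refine ⟨∏ᶠ v : HeightOneSpectrum B, v.asIdeal ^ c v, ?_⟩
  rw [← Ideal.finprod_heightOneSpectrum_factorization h0]
  have hs : (Function.mulSupport fun v : HeightOneSpectrum B => v.asIdeal ^ c v).Finite := by
    refine (Ideal.hasFiniteMulSupport h0).subset ?_
    intro v hv hv'
    apply hv
    have h1 : v.maxPowDividing (Ideal.span {r}) = 1 := hv'
    rw [maxPowDividing, hc v, mul_comm, pow_mul] at h1
    rcases pow_eq_one_iff.mp h1 with h2 | h2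
    · exact h2
    · omega
  rw [finprod_pow hs]
  apply finprod_congr
  intro v
  rw [maxPowDividing, hc v, mul_comm, pow_mul]

/-- In the class of `I` there is an ideal prime to `I`: `a I = c I'`. -/
theorem exists_coprime_ideal (I : Ideal B) (hI : I ≠ ⊥) :
    ∃ (c d : B) (I' : Ideal B), c ≠ 0 ∧ d ≠ 0 ∧
      Ideal.span {d} * I = Ideal.span {c} * I' ∧ I ⊔ I' = ⊤ := by
  obtain ⟨c, hcI, hc0⟩ := Submodule.exists_mem_ne_zero_of_ne_bot hI
  obtain ⟨J, hJ⟩ : I ∣ Ideal.span {c} := by
    rw [Ideal.dvd_iff_le, Ideal.span_singleton_le_iff_mem]; exact hcI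
  have hc' : Ideal.span {c} ≠ (⊥ : Ideal B) := by
    simpa [Ideal.span_singleton_eq_bot] using hc0
  have hJ0 : J ≠ ⊥ := by
    rintro rfl
    apply hc'
    rw [hJ, Ideal.mul_bot]
  obtain ⟨d, hd⟩ := IsDedekindDomain.exists_sup_span_eq (I := J * I) (J := J)
    Ideal.mul_le_left (by
      intro h0
      rcases mul_eq_zero.mp h0 with h1 | h1
      · exact hJ0 h1
      · exact hI h1)
  by_cases hd0 : d = 0
  · have hJI : J * I = J := by
      have h1 : J * I ⊔ Ideal.span {d} = J * I := by rw [hd0]; simp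
      exact h1.symm.trans hd
    have hI1 : I = 1 := by
      have h2 : J * I = J * 1 := by rw [hJI, mul_one]
      exact mul_left_cancel₀ hJ0 h2
    refine ⟨1, 1, 1, one_ne_zero, one_ne_zero, ?_, ?_⟩
    · rw [hI1]
    · rw [hI1, Ideal.one_eq_top, sup_idem]
  · obtain ⟨I', hI'⟩ : J ∣ Ideal.span {d} := by
      rw [Ideal.dvd_iff_le, ← hd]; exact le_sup_right
    refine ⟨c, d, I', hc0, hd0, ?_, ?_⟩
    · rw [hJ, hI']; ring
    · have h3 : J * (I ⊔ I') = J * 1 := by
        rw [Ideal.mul_sup, ← hI', hd, mul_one]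
      have := mul_left_cancel₀ hJ0 h3
      rw [this, Ideal.one_eq_top]

variable {K : Type*} [Field K] [Algebra B K] [IsFractionRing B K]

theorem exists_coprime_pair (l : ℕ) (hl : 1 ≤ l) (φ : K) (hφ : φ ≠ 0)
    (h : ∀ V : ValuationSubring K, (∀ b : B, algebraMap B K b ∈ V) →
      ∃ w : K, w ≠ 0 ∧ φ * w ^ l ∈ V ∧ (φ * w ^ l)⁻¹ ∈ V) :
    ∃ (f g : K) (ρ ρ' α β : B), f ≠ 0 ∧ g ≠ 0 ∧ algebraMap B K ρ = φ * f ^ l ∧
      algebraMap B K ρ' = φ * g ^ l ∧ α * ρ + β * ρ' = 1 := by
  have hinj : Function.Injective (algebraMap B K) := IsFractionRing.injective B K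
  obtain ⟨a0, b0, hb0, hab⟩ := IsFractionRing.div_surjective (A := B) φ
  have hb0' : (b0 : B) ≠ 0 := nonZeroDivisors.ne_zero hb0
  have hbK : algebraMap B K b0 ≠ 0 := fun h0 => hb0' (hinj (by rw [h0, map_zero]))
  set r : B := a0 * b0 ^ (l - 1) with hr
  have hrK : algebraMap B K r = φ * (algebraMap B K b0) ^ l := by
    obtain ⟨m, rfl⟩ : ∃ m, l = m + 1 := ⟨l - 1, by omega⟩
    rw [hr, ← hab, map_mul, map_pow, Nat.add_sub_cancel, pow_succ]
    field_simp
  have hr0 : r ≠ 0 := by
    rintro h0
    rw [h0, map_zero] at hrK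
    exact (mul_ne_zero hφ (pow_ne_zero _ hbK)) hrK.symm
  -- divisibility of the exponents
  have hdiv : ∀ v : HeightOneSpectrum B,
      l ∣ (Associates.mk v.asIdeal).count (Associates.mk (Ideal.span {r})).factors := by
    intro v
    obtain ⟨w, hw0, hw1, hw2⟩ := h (v.valuation K).valuationSubring (by
      intro b
      rw [Valuation.mem_valuationSubring_iff]
      exact v.valuation_le_one b)
    rw [Valuation.mem_valuationSubring_iff] at hw1 hw2
    have h1 : v.valuation K (φ * w ^ l) = 1 := by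
      refine le_antisymm hw1 ?_
      rw [map_inv₀] at hw2
      have hne : v.valuation K (φ * w ^ l) ≠ 0 := by
        rw [Valuation.ne_zero_iff]
        exact mul_ne_zero hφ (pow_ne_zero _ hw0)
      rwa [inv_le_one₀ (zero_lt_iff.mpr hne)] at hw2
    have h2 : v.intValuation r * (v.valuation K (w / algebraMap B K b0)) ^ l = 1 := by
      have h20 : v.valuation K (algebraMap B K r) = v.intValuation r :=
        v.valuation_of_algebraMap r
      rw [← h20, hrK, ← Valuation.map_pow, ← Valuation.map_mul, ← h1]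
      congr 1
      rw [mul_assoc, ← mul_pow, mul_div_cancel₀ _ hbK]
    have hx0 : v.valuation K (w / algebraMap B K b0) ≠ 0 := by
      rw [Valuation.ne_zero_iff]
      exact div_ne_zero hw0 hbK
    obtain ⟨n, hn⟩ : ∃ n : ℤ, v.valuation K (w / algebraMap B K b0) = WithZero.exp n :=
      ⟨_, (WithZero.exp_log hx0).symm⟩
    rw [v.intValuation_if_neg hr0, hn, ← WithZero.exp_nsmul, ← WithZero.exp_add,
      ← WithZero.exp_zero, WithZero.exp_inj] at h2
    have h3 : ((Associates.mk v.asIdeal).count (Associates.mk (Ideal.span {r})).factors : ℤ)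
        = l * n := by
      rw [nsmul_eq_mul] at h2
      linarith
    have h4 : (l : ℤ) ∣
        ((Associates.mk v.asIdeal).count (Associates.mk (Ideal.span {r})).factors : ℤ) :=
      ⟨n, h3⟩
    exact_mod_cast h4
  obtain ⟨I, hI⟩ := exists_ideal_pow l r hr0 hdiv
  have hI0 : I ≠ ⊥ := by
    rintro rfl
    have : Ideal.span {r} = (⊥ : Ideal B) := by
      rw [hI]
      exact zero_pow (by omega)
    exact hr0 (Ideal.span_singleton_eq_bot.mp this)
  obtain ⟨c, d, I', hc, hd, hcd, hco⟩ := exists_coprime_ideal I hI0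
  have hpow : Ideal.span {d ^ l * r} = Ideal.span {c ^ l} * I' ^ l := by
    rw [← Ideal.span_singleton_mul_span_singleton, hI, ← Ideal.span_singleton_pow,
      ← Ideal.span_singleton_pow, ← mul_pow, ← mul_pow, hcd]
  obtain ⟨ρ', hρ'⟩ : c ^ l ∣ d ^ l * r := by
    rw [← Ideal.span_singleton_le_span_singleton, hpow]
    exact Ideal.mul_le_left
  have hI'l : Ideal.span {ρ'} = I' ^ l := by
    have hcl : Ideal.span {c ^ l} ≠ (0 : Ideal B) := by
      simpa [Ideal.span_singleton_eq_bot] using pow_ne_zero l hc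
    apply mul_left_cancel₀ hcl
    rw [← hpow, hρ', Ideal.span_singleton_mul_span_singleton]
  have hcop : IsCoprime (Ideal.span {r}) (Ideal.span {ρ'}) := by
    rw [hI, hI'l]
    apply IsCoprime.pow
    rw [Ideal.isCoprime_iff_sup_eq]
    exact hco
  rw [Ideal.isCoprime_span_singleton_iff] at hcop
  obtain ⟨α, β, hαβ⟩ := hcop
  refine ⟨algebraMap B K b0, algebraMap B K b0 * (algebraMap B K d / algebraMap B K c), r, ρ',
    α, β, hbK, ?_, hrK, ?_, hαβ⟩
  · refine mul_ne_zero hbK (div_ne_zero ?_ ?_)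
    · exact fun h0 => hd (hinj (by rw [h0, map_zero]))
    · exact fun h0 => hc (hinj (by rw [h0, map_zero]))
  · have hcK : algebraMap B K c ≠ 0 := fun h0 => hc (hinj (by rw [h0, map_zero]))
    have h5 : (algebraMap B K d) ^ l * algebraMap B K r =
        (algebraMap B K c) ^ l * algebraMap B K ρ' := by
      rw [← map_pow, ← map_pow, ← map_mul, ← map_mul, hρ']
    rw [hrK] at h5
    have h6 : (algebraMap B K c) ^ l ≠ 0 := pow_ne_zero _ hcK
    apply mul_left_cancel₀ h6
    rw [← h5, mul_pow, div_pow]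
    field_simp

end

end Pool.Agent.H46.SG
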